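import Pool.Agent.N669.CQ.Stm

/-!
# Project CQ (helper669), MP_b29168_gt: rotations of the normal form (helper362)
-/

set_option autoImplicit false

open MeasureTheory Set Pool.Agent.N669.CQ

namespace Pool.Agent.N362.CQ

theorem t_ROT (h1 : S_AF1) (h2 : S_AF2) : S_ROT := by
  intro K hK
  have hcr : cr ((0 : ℝ), (1 : ℝ)) ((-1 : ℝ), (0 : ℝ)) = 1 := by simp [cr]
  have hpos : 0 < cr ((0 : ℝ), (1 : ℝ)) ((-1 : ℝ), (0 : ℝ)) := by rw [hcr]; norm_num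
  have haf : ∀ z : P, af ((1 : ℝ), (0 : ℝ)) ((0 : ℝ), (1 : ℝ)) ((-1 : ℝ), (0 : ℝ)) z =
      (1 - z.2, z.1) := by
    intro z
    ext
    · simp [af]; ring
    · simp [af]
  have hset : {z : P | (1 - z.2, z.1) ∈ K} =
      af ((1 : ℝ), (0 : ℝ)) ((0 : ℝ), (1 : ℝ)) ((-1 : ℝ), (0 : ℝ)) ⁻¹' K := by
    ext z
    rw [mem_preimage, haf]
    rfl
  obtain ⟨hbd, hvol⟩ := (h1 ((1 : ℝ), (0 : ℝ)) ((0 : ℝ), (1 : ℝ)) ((-1 : ℝ), (0 : ℝ)) hpos).2 K
  have hA := h2 ((1 : ℝ), (0 : ℝ)) ((0 : ℝ), (1 : ℝ)) ((-1 : ℝ), (0 : ℝ)) hpos K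
  rw [hcr, one_mul] at hvol
  refine ⟨?_, ?_, ?_, ?_, ?_, ?_, ?_, ?_⟩
  · rw [hset]
    exact hbd hK.bd
  · intro a b c d h
    rw [hset] at h
    obtain ⟨e1, e2⟩ := hA a b c d
    have h3 := hK.min _ _ _ _ (e1.mp h)
    rw [e2, hcr, one_mul] at h3
    exact h3
  · rw [hset, ← hvol]
    exact hK.vle
  · have := hK.c10
    simpa using this
  · have := hK.c11
    simpa using this
  · have := hK.c01
    simpa using this
  · have := hK.c00
    simpa using this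
  · intro z hz hz1
    have hw : ((1 - z.2, z.1) : P) ∈ K := hz
    by_contra hcon
    have h3 := hK.out _ hw
    simp only at h3
    have h4 : 1 - z.2 < 0 ∨ 1 < 1 - z.2 := by
      by_contra h5
      push Not at h5
      exact hcon ⟨by linarith [h5.2], by linarith [h5.1]⟩
    obtain ⟨h5, h6⟩ := h3 h4
    rcases hz1 with h | h <;> linarith

end Pool.Agent.N362.CQ
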